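import Mathlib

/-!
# Holomorphic self-maps of the projective plane without repelling fixed points
-/

set_option autoImplicit false

namespace Pool.Agent.Y327.PP

open MvPolynomial
open scoped LinearAlgebra.Projectivization

/-- The value of the lift `(F 0, F 1, F 2)` at a vector. -/
noncomputable def value (F : Fin 3 → MvPolynomial (Fin 3) ℂ) (z : Fin 3 → ℂ) : Fin 3 → ℂ :=
  fun i => eval z (F i)

/-- `[F 0 : F 1 : F 2]` is a holomorphic self-map of the projective plane of degree `d`. -/
def IsHolomorphicMap (d : ℕ) (F : Fin 3 → MvPolynomial (Fin 3) ℂ) : Prop :=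
  (∀ i, (F i).IsHomogeneous d) ∧ ∀ z : Fin 3 → ℂ, value F z = 0 → z = 0

/-- The derivative of the lift at `z`. -/
noncomputable def jacobian (F : Fin 3 → MvPolynomial (Fin 3) ℂ) (z : Fin 3 → ℂ) :
    (Fin 3 → ℂ) →ₗ[ℂ] (Fin 3 → ℂ) :=
  Matrix.toLin' (Matrix.of fun i j => eval z (pderiv j (F i)))

/-- The tangent space of the projective plane at `[z]`. -/
abbrev Tangent (z : Fin 3 → ℂ) : Type := (Fin 3 → ℂ) ⧸ Submodule.span ℂ {z}

/-- `T` is the derivative at the fixed point `[z]` of the map `[F 0 : F 1 : F 2]`: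
if `F z = μ z`, then `T` is induced by the derivative of the lift divided by `μ`. -/
def IsDerivative (F : Fin 3 → MvPolynomial (Fin 3) ℂ) (z : Fin 3 → ℂ)
    (T : Module.End ℂ (Tangent z)) : Prop :=
  ∃ μ : ℂ, value F z = μ • z ∧ μ ≠ 0 ∧ ∀ v : Fin 3 → ℂ,
    T (Submodule.Quotient.mk v) = Submodule.Quotient.mk (μ⁻¹ • jacobian F z v)

/-- The self-map `f` of the projective plane is `[z] ↦ [F 0 z : F 1 z : F 2 z]`. -/
def IsMap (F : Fin 3 → MvPolynomial (Fin 3) ℂ)
    (f : ℙ ℂ (Fin 3 → ℂ) → ℙ ℂ (Fin 3 → ℂ)) : Prop :=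
  ∀ (z : Fin 3 → ℂ) (hz : z ≠ 0), ∃ hw : value F z ≠ 0,
    f (Projectivization.mk ℂ z hz) = Projectivization.mk ℂ (value F z) hw

/-! ### The example -/

/-- The coefficient `d / (d + 1)`. -/
noncomputable def coef (d : ℕ) : ℂ := (d : ℂ) / (d + 1)

theorem coef_eq (d : ℕ) : (d : ℂ) * (1 - coef d) = coef d := by
  have h : (d : ℂ) + 1 ≠ 0 := by exact_mod_cast Nat.succ_ne_zero d
  rw [coef]
  field_simp
  ring

theorem norm_coef (d : ℕ) : ‖coef d‖ = (d : ℝ) / (d + 1) := by
  rw [coef, norm_div]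
  have h1 : ‖(d : ℂ)‖ = (d : ℝ) := by simp
  have h2 : ‖(d : ℂ) + 1‖ = (d : ℝ) + 1 := by
    have : ((d : ℂ) + 1) = ((d + 1 : ℕ) : ℂ) := by push_cast; ring
    rw [this, Complex.norm_natCast]
    push_cast
    ring
  rw [h1, h2]

/-- The map `[a x z^(d-1) + y^d : a y z^(d-1) + x^d : z^d]` with `a = d / (d + 1)`. -/
noncomputable def ex (d : ℕ) : Fin 3 → MvPolynomial (Fin 3) ℂ :=
  ![C (coef d) * X 0 * X 2 ^ (d - 1) + X 1 ^ d, C (coef d) * X 1 * X 2 ^ (d - 1) + X 0 ^ d,
    X 2 ^ d]

theorem value_ex (d : ℕ) (z : Fin 3 → ℂ) :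
    value (ex d) z = ![coef d * z 0 * z 2 ^ (d - 1) + z 1 ^ d,
      coef d * z 1 * z 2 ^ (d - 1) + z 0 ^ d, z 2 ^ d] := by
  funext i
  fin_cases i <;> simp [value, ex]

theorem hom_ex {d : ℕ} (hd : 2 ≤ d) (i : Fin 3) : (ex d i).IsHomogeneous d := by
  have h1 : ∀ j : Fin 3, (C (coef d) * X j * X 2 ^ (d - 1) :
      MvPolynomial (Fin 3) ℂ).IsHomogeneous d := by
    intro j
    have h := (isHomogeneous_C_mul_X (coef d) j).mul (isHomogeneous_X_pow (R := ℂ) (2 : Fin 3) (d - 1))
    have hd' : 1 + (d - 1) = d := by omega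
    rw [hd'] at h
    exact h
  fin_cases i
  · exact (h1 0).add (isHomogeneous_X_pow 1 d)
  · exact (h1 1).add (isHomogeneous_X_pow 0 d)
  · exact isHomogeneous_X_pow 2 d

theorem nonzero_ex {d : ℕ} (hd : 2 ≤ d) (z : Fin 3 → ℂ) (h : value (ex d) z = 0) : z = 0 := by
  rw [value_ex] at h
  have h0 : coef d * z 0 * z 2 ^ (d - 1) + z 1 ^ d = 0 := congrFun h 0
  have h1 : coef d * z 1 * z 2 ^ (d - 1) + z 0 ^ d = 0 := congrFun h 1
  have h2 : z 2 ^ d = 0 := congrFun h 2
  have hd0 : d ≠ 0 := by omega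
  have hd1 : d - 1 ≠ 0 := by omega
  have hz2 : z 2 = 0 := pow_eq_zero_iff hd0 |>.1 h2
  rw [hz2, zero_pow hd1, mul_zero, zero_add] at h0 h1
  funext i
  fin_cases i
  · exact (pow_eq_zero_iff hd0).1 h1
  · exact (pow_eq_zero_iff hd0).1 h0
  · exact hz2

theorem jacobian_ex {d : ℕ} (hd : 2 ≤ d) (z v : Fin 3 → ℂ) :
    jacobian (ex d) z v =
      ![coef d * z 2 ^ (d - 1) * v 0 + d * z 1 ^ (d - 1) * v 1 +
          coef d * z 0 * ((d - 1 : ℕ) * z 2 ^ (d - 2)) * v 2,
        d * z 0 ^ (d - 1) * v 0 + coef d * z 2 ^ (d - 1) * v 1 +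
          coef d * z 1 * ((d - 1 : ℕ) * z 2 ^ (d - 2)) * v 2,
        d * z 2 ^ (d - 1) * v 2] := by
  have hd2 : d - 1 - 1 = d - 2 := by omega
  funext i
  rw [jacobian, Matrix.toLin'_apply, Matrix.mulVec, dotProduct, Fin.sum_univ_three]
  fin_cases i <;>
    simp [ex, pderiv_X, hd2, mul_comm]

/-! ### The fixed points -/

section fixed

variable {d : ℕ} {z : Fin 3 → ℂ} {μ : ℂ}

theorem eqs (h : value (ex d) z = μ • z) :
    coef d * z 0 * z 2 ^ (d - 1) + z 1 ^ d = μ * z 0 ∧
      coef d * z 1 * z 2 ^ (d - 1) + z 0 ^ d = μ * z 1 ∧ z 2 ^ d = μ * z 2 := by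
  rw [value_ex] at h
  exact ⟨congrFun h 0, congrFun h 1, congrFun h 2⟩

theorem mu_ne (hd : 2 ≤ d) (hz : z ≠ 0) (h : value (ex d) z = μ • z) : μ ≠ 0 := by
  rintro rfl
  rw [zero_smul] at h
  exact hz (nonzero_ex hd z h)

theorem mu_eq (hd : 2 ≤ d) (h : value (ex d) z = μ • z) (h2 : z 2 ≠ 0) :
    z 2 ^ (d - 1) = μ := by
  have h3 := (eqs h).2.2
  have h4 : z 2 ^ d = z 2 ^ (d - 1) * z 2 := by
    rw [← pow_succ]
    congr 1
    omega
  rw [h4] at h3
  exact mul_right_cancel₀ h2 h3

theorem mem_span {v : Fin 3 → ℂ} : v ∈ Submodule.span ℂ {z} ↔ ∃ c : ℂ, c • z = v :=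
  Submodule.mem_span_singleton

/-- The derivative of the lift preserves the line. -/
theorem jacobian_self (hd : 2 ≤ d) (h : value (ex d) z = μ • z) :
    jacobian (ex d) z z = (d * μ) • z := by
  obtain ⟨h0, h1, h2⟩ := eqs h
  have e1 : ∀ x : ℂ, x ^ (d - 1) * x = x ^ d := by
    intro x
    rw [← pow_succ]
    congr 1
    omega
  have e2 : z 2 ^ (d - 2) * z 2 = z 2 ^ (d - 1) := by
    rw [← pow_succ]
    congr 1
    omega
  have e3 : ((d - 1 : ℕ) : ℂ) = d - 1 := by
    rw [Nat.cast_sub (by omega)]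
    simp
  rw [jacobian_ex hd]
  funext i
  fin_cases i
  · change coef d * z 2 ^ (d - 1) * z 0 + d * z 1 ^ (d - 1) * z 1 +
      coef d * z 0 * ((d - 1 : ℕ) * z 2 ^ (d - 2)) * z 2 = d * μ * z 0
    rw [e3]
    linear_combination (d : ℂ) * h0 + (d : ℂ) * e1 (z 1) + coef d * z 0 * ((d : ℂ) - 1) * e2
  · change d * z 0 ^ (d - 1) * z 0 + coef d * z 2 ^ (d - 1) * z 1 +
      coef d * z 1 * ((d - 1 : ℕ) * z 2 ^ (d - 2)) * z 2 = d * μ * z 1
    rw [e3]
    linear_combination (d : ℂ) * h1 + (d : ℂ) * e1 (z 0) + coef d * z 1 * ((d : ℂ) - 1) * e2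
  · change d * z 2 ^ (d - 1) * z 2 = d * μ * z 2
    linear_combination (d : ℂ) * h2 + (d : ℂ) * e1 (z 2)

/-- The derivative at the fixed point. -/
theorem exists_derivative (hd : 2 ≤ d) (hz : z ≠ 0) (h : value (ex d) z = μ • z) :
    ∃ T : Module.End ℂ (Tangent z), IsDerivative (ex d) z T ∧
      ∀ v : Fin 3 → ℂ,
        T (Submodule.Quotient.mk v) = Submodule.Quotient.mk (μ⁻¹ • jacobian (ex d) z v) := by
  have hle : Submodule.span ℂ {z} ≤
      (Submodule.span ℂ {z}).comap (μ⁻¹ • jacobian (ex d) z) := by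
    rw [Submodule.span_le]
    rintro _ rfl
    change μ⁻¹ • jacobian (ex d) _ _ ∈ Submodule.span ℂ _
    rw [jacobian_self hd h]
    exact Submodule.smul_mem _ _ (Submodule.smul_mem _ _ (Submodule.mem_span_singleton_self _))
  refine ⟨Submodule.mapQ _ _ (μ⁻¹ • jacobian (ex d) z) hle,
    ⟨μ, h, mu_ne hd hz h, fun v => rfl⟩, fun v => rfl⟩

/-- An eigenvalue from an eigenvector. -/
theorem hasEigenvalue {T : Module.End ℂ (Tangent z)} (hμ : μ ≠ 0)
    (hT : ∀ v : Fin 3 → ℂ,
      T (Submodule.Quotient.mk v) = Submodule.Quotient.mk (μ⁻¹ • jacobian (ex d) z v))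
    {v : Fin 3 → ℂ} (hv : v ∉ Submodule.span ℂ {z}) {l c : ℂ}
    (h : jacobian (ex d) z v = (μ * l) • v + c • z) : T.HasEigenvalue l := by
  apply Module.End.hasEigenvalue_of_hasEigenvector (x := Submodule.Quotient.mk v)
  rw [Module.End.hasEigenvector_iff, Module.End.mem_eigenspace_iff]
  refine ⟨?_, fun h0 => hv ((Submodule.Quotient.mk_eq_zero _).1 h0)⟩
  rw [hT, h, ← Submodule.Quotient.mk_smul, Submodule.Quotient.eq, mem_span]
  refine ⟨μ⁻¹ * c, ?_⟩
  funext i
  simp only [Pi.smul_apply, Pi.add_apply, Pi.sub_apply, smul_eq_mul]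
  field_simp
  ring

/-- An eigenvector from an eigenvalue. -/
theorem eigenvector {T : Module.End ℂ (Tangent z)} (hμ : μ ≠ 0)
    (hT : ∀ v : Fin 3 → ℂ,
      T (Submodule.Quotient.mk v) = Submodule.Quotient.mk (μ⁻¹ • jacobian (ex d) z v))
    {l : ℂ} (h : T.HasEigenvalue l) :
    ∃ v, v ∉ Submodule.span ℂ {z} ∧ ∃ c : ℂ, jacobian (ex d) z v = (μ * l) • v + c • z := by
  obtain ⟨x, hx⟩ := h.exists_hasEigenvector
  obtain ⟨v, rfl⟩ := Submodule.Quotient.mk_surjective _ x
  rw [Module.End.hasEigenvector_iff, Module.End.mem_eigenspace_iff] at hx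
  obtain ⟨h1, h2⟩ := hx
  refine ⟨v, fun hv => h2 ((Submodule.Quotient.mk_eq_zero _).2 hv), ?_⟩
  rw [hT, ← Submodule.Quotient.mk_smul, Submodule.Quotient.eq, mem_span] at h1
  obtain ⟨c, hc⟩ := h1
  refine ⟨μ * c, ?_⟩
  have h3 : μ⁻¹ • jacobian (ex d) z v = c • z + l • v := by
    rw [hc]
    abel
  have h4 := congrArg (fun w => μ • w) h3
  simp only [smul_smul, mul_inv_cancel₀ hμ, one_smul, smul_add] at h4
  rw [h4, add_comm]

/-- The eigenvalues of the derivative at the fixed points. -/
theorem main (hd : 2 ≤ d) (hz : z ≠ 0) (h : value (ex d) z = μ • z) {T : Module.End ℂ (Tangent z)}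
    (hT : ∀ v : Fin 3 → ℂ,
      T (Submodule.Quotient.mk v) = Submodule.Quotient.mk (μ⁻¹ • jacobian (ex d) z v)) :
    (∃ l : ℂ, T.HasEigenvalue l ∧ ‖l‖ < 1) ∧ ∀ l : ℂ, T.HasEigenvalue l → ‖l‖ ≠ 1 := by
  have hμ := mu_ne hd hz h
  have hd0 : d ≠ 0 := by omega
  have hd1 : d - 1 ≠ 0 := by omega
  have hdC : (d : ℂ) ≠ 0 := by exact_mod_cast hd0
  have hdR : (2 : ℝ) ≤ d := by exact_mod_cast hd
  have ha := coef_eq d
  have hna := norm_coef d
  have hna1 : ‖coef d‖ < 1 := by
    rw [hna, div_lt_one (by positivity)]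
    linarith
  have ha0 : coef d ≠ 0 := by
    intro h0
    rw [h0, sub_zero, mul_one] at ha
    exact hdC ha
  obtain ⟨h0, h1, h2⟩ := eqs h
  have e1 : ∀ x : ℂ, x ^ d = x ^ (d - 1) * x := by
    intro x
    rw [← pow_succ]
    congr 1
    omega
  by_cases hw : z 2 = 0
  · -- at infinity
    have hxy : z 0 ≠ 0 ∧ z 1 ≠ 0 := by
      rw [hw, zero_pow hd1, mul_zero, zero_add] at h0 h1
      constructor
      · intro hx
        rw [hx, mul_zero] at h0
        apply hz
        funext i
        fin_cases i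
        · exact hx
        · exact (pow_eq_zero_iff hd0).1 h0
        · exact hw
      · intro hy
        rw [hy, mul_zero] at h1
        apply hz
        funext i
        fin_cases i
        · exact (pow_eq_zero_iff hd0).1 h1
        · exact hy
        · exact hw
    obtain ⟨hx, hy⟩ := hxy
    have hw1 : z 2 ^ (d - 1) = 0 := by rw [hw, zero_pow hd1]
    have h0' : z 1 ^ (d - 1) * z 1 = μ * z 0 := by
      rw [← e1]
      rw [hw1, mul_zero, zero_add] at h0
      exact h0
    have h1' : z 0 ^ (d - 1) * z 0 = μ * z 1 := by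
      rw [← e1]
      rw [hw1, mul_zero, zero_add] at h1
      exact h1
    constructor
    · refine ⟨0, hasEigenvalue hμ hT (v := ![0, 0, 1])
        (c := coef d * ((d - 1 : ℕ) * z 2 ^ (d - 2))) ?_ ?_, by simp⟩
      · rw [mem_span]
        rintro ⟨c, hc⟩
        have h3 := congrFun hc 2
        simp [hw] at h3
      · rw [jacobian_ex hd]
        funext i
        fin_cases i
        · simp
          ring
        · simp
          ring
        · simp [hw, hd1]
    · intro l hl
      obtain ⟨v, hv, c, hc⟩ := eigenvector hμ hT hl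
      rw [jacobian_ex hd] at hc
      have c0 := congrFun hc 0
      have c1 := congrFun hc 1
      have c2 := congrFun hc 2
      simp only [Matrix.cons_val_zero, Matrix.cons_val_one, Matrix.cons_val, Pi.add_apply,
        Pi.smul_apply, smul_eq_mul] at c0 c1 c2
      rw [hw1, mul_zero, zero_mul, hw, mul_zero, add_zero] at c2
      by_cases hl0 : l = 0
      · rw [hl0]
        simp
      have hv2 : v 2 = 0 := by
        rcases mul_eq_zero.1 c2.symm with h3 | h3
        · exact absurd h3 (mul_ne_zero hμ hl0)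
        · exact h3
      rw [hw1, mul_zero, zero_mul, zero_add, hv2, mul_zero, add_zero] at c0
      rw [hw1, mul_zero, zero_mul, add_zero, hv2, mul_zero, add_zero] at c1
      have h3 : ((d : ℂ) + l) * μ * (z 0 * v 1 - z 1 * v 0) = 0 := by
        linear_combination z 1 * c0 - z 0 * c1 - (d : ℂ) * v 1 * h0' + (d : ℂ) * v 0 * h1'
      have h4 : z 0 * v 1 - z 1 * v 0 ≠ 0 := by
        intro h4
        apply hv
        rw [mem_span]
        refine ⟨v 0 / z 0, ?_⟩
        funext i
        fin_cases i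
        · change v 0 / z 0 * z 0 = v 0
          field_simp
        · change v 0 / z 0 * z 1 = v 1
          field_simp
          linear_combination -h4
        · change v 0 / z 0 * z 2 = v 2
          rw [hw, hv2, mul_zero]
      have h5 : l = -(d : ℂ) := by
        have h6 : (d : ℂ) + l = 0 := by
          rcases mul_eq_zero.1 h3 with h7 | h7
          · exact (mul_eq_zero.1 h7).resolve_right hμ
          · exact absurd h7 h4
        linear_combination h6
      rw [h5, norm_neg, Complex.norm_natCast]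
      intro h6
      linarith
  · -- in the affine plane
    have hm := mu_eq hd h hw
    have f0 : (1 - coef d) * (z 0 * μ) = z 1 ^ (d - 1) * z 1 := by
      rw [← e1]
      rw [hm] at h0
      linear_combination -h0
    have f1 : (1 - coef d) * (z 1 * μ) = z 0 ^ (d - 1) * z 0 := by
      rw [← e1]
      rw [hm] at h1
      linear_combination -h1
    have ha1 : (1 - coef d) ≠ 0 := by
      intro h3
      rw [h3, mul_zero] at ha
      exact ha0 ha.symm
    have hx0 : z 0 = 0 ↔ z 1 = 0 := by
      constructor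
      · intro hx
        rw [hx, zero_mul, mul_zero, ← e1] at f0
        exact (pow_eq_zero_iff hd0).1 f0.symm
      · intro hy
        rw [hy, zero_mul, mul_zero, ← e1] at f1
        exact (pow_eq_zero_iff hd0).1 f1.symm
    -- the product
    have hprod : z 0 ≠ 0 → z 0 ^ (d - 1) * z 1 ^ (d - 1) = (1 - coef d) ^ 2 * μ ^ 2 := by
      intro hx
      have hy : z 1 ≠ 0 := fun h3 => hx (hx0.2 h3)
      have h3 : z 0 ^ (d - 1) * z 1 ^ (d - 1) * (z 0 * z 1) =
          (1 - coef d) ^ 2 * μ ^ 2 * (z 0 * z 1) := by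
        linear_combination -(z 0 ^ (d - 1) * z 0) * f0 - (1 - coef d) * (z 0 * μ) * f1
      exact mul_right_cancel₀ (mul_ne_zero hx hy) h3
    constructor
    · by_cases hx : z 0 = 0
      · refine ⟨coef d, hasEigenvalue hμ hT (v := ![1, 0, 0]) (c := 0) ?_ ?_, hna1⟩
        · rw [mem_span]
          rintro ⟨c, hc⟩
          have h3 := congrFun hc 2
          have h4 := congrFun hc 0
          simp [hw] at h3
          simp [h3] at h4
        · rw [jacobian_ex hd, hm]
          funext i
          fin_cases i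
          · simp
            ring
          · simp [hx, hd1]
          · simp
      · refine ⟨0, hasEigenvalue hμ hT
          (v := ![(d : ℂ) * z 1 ^ (d - 1), -(coef d * μ), 0]) (c := 0) ?_ ?_, by simp⟩
        · rw [mem_span]
          rintro ⟨c, hc⟩
          have h3 := congrFun hc 2
          have h4 := congrFun hc 1
          simp [hw] at h3
          simp [h3, ha0, hμ] at h4
        · rw [jacobian_ex hd, hm]
          funext i
          fin_cases i
          · simp
            ring
          · simp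
            linear_combination (d : ℂ) ^ 2 * hprod hx + μ ^ 2 * (d * (1 - coef d) + coef d) * ha
          · simp
    · intro l hl
      obtain ⟨v, hv, c, hc⟩ := eigenvector hμ hT hl
      rw [jacobian_ex hd, hm] at hc
      have c0 := congrFun hc 0
      have c1 := congrFun hc 1
      have c2 := congrFun hc 2
      simp only [Matrix.cons_val_zero, Matrix.cons_val_one, Matrix.cons_val, Pi.add_apply,
        Pi.smul_apply, smul_eq_mul] at c0 c1 c2
      -- subtract a multiple of `z` from `v`
      have hself := jacobian_self hd h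
      rw [jacobian_ex hd, hm] at hself
      have s0 := congrFun hself 0
      have s1 := congrFun hself 1
      simp only [Matrix.cons_val_zero, Matrix.cons_val_one, Matrix.cons_val,
        Pi.smul_apply, smul_eq_mul] at s0 s1
      obtain ⟨r, hr⟩ : ∃ r : ℂ, r * z 2 = v 2 := ⟨v 2 / z 2, by field_simp⟩
      set v0 : ℂ := v 0 - r * z 0 with hv0
      set v1 : ℂ := v 1 - r * z 1 with hv1
      have hc' : c = (d - l) * μ * r := by
        have h3 : (c - (d - l) * μ * r) * z 2 = 0 := by
          linear_combination -c2 - (d - l) * μ * hr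
        rcases mul_eq_zero.1 h3 with h4 | h4
        · linear_combination h4
        · exact absurd h4 hw
      have g0 : coef d * μ * v0 + d * z 1 ^ (d - 1) * v1 = μ * l * v0 := by
        rw [hv0, hv1]
        linear_combination c0 - r * s0 + z 0 * hc' -
          coef d * z 0 * ((d - 1 : ℕ) * z 2 ^ (d - 2)) * (-hr)
      have g1 : d * z 0 ^ (d - 1) * v0 + coef d * μ * v1 = μ * l * v1 := by
        rw [hv0, hv1]
        linear_combination c1 - r * s1 + z 1 * hc' -
          coef d * z 1 * ((d - 1 : ℕ) * z 2 ^ (d - 2)) * (-hr)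
      have hne : v0 ≠ 0 ∨ v1 ≠ 0 := by
        by_contra hcon
        push Not at hcon
        apply hv
        rw [mem_span]
        refine ⟨r, ?_⟩
        funext i
        fin_cases i
        · change r * z 0 = v 0
          linear_combination -hcon.1
        · change r * z 1 = v 1
          linear_combination -hcon.2
        · exact hr
      have hla : l = coef d → ‖l‖ ≠ 1 := by
        rintro rfl
        exact hna1.ne
      by_cases hx : z 0 = 0
      · have hy := hx0.1 hx
        rw [hy, zero_pow hd1] at g0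
        rw [hx, zero_pow hd1] at g1
        apply hla
        rcases hne with h3 | h3
        · have h4 : μ * (l - coef d) * v0 = 0 := by linear_combination -g0
          have h5 := (mul_eq_zero.1 h4).resolve_right h3
          linear_combination (mul_eq_zero.1 h5).resolve_left hμ
        · have h4 : μ * (l - coef d) * v1 = 0 := by linear_combination -g1
          have h5 := (mul_eq_zero.1 h4).resolve_right h3
          linear_combination (mul_eq_zero.1 h5).resolve_left hμ
      · have hy : z 1 ≠ 0 := fun h3 => hx (hx0.2 h3)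
        have hv0ne : v0 ≠ 0 := by
          intro h3
          rw [h3, mul_zero, mul_zero, zero_add] at g0
          have h4 : v1 = 0 := by
            rcases mul_eq_zero.1 g0 with h5 | h5
            · exact absurd h5 (mul_ne_zero hdC (pow_ne_zero _ hy))
            · exact h5
          rcases hne with h5 | h5
          · exact h5 h3
          · exact h5 h4
        have hv1ne : v1 ≠ 0 := by
          intro h3
          rw [h3, mul_zero, mul_zero, add_zero] at g1
          rcases mul_eq_zero.1 g1 with h5 | h5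
          · exact absurd h5 (mul_ne_zero hdC (pow_ne_zero _ hx))
          · exact hv0ne h5
        have h3 : ((l - coef d) ^ 2 - coef d ^ 2) * (μ ^ 2 * (v0 * v1)) = 0 := by
          have h4 := hprod hx
          linear_combination (-(μ * (l - coef d) * v1)) * g0 -
            (d * z 1 ^ (d - 1) * v1) * g1 + (d : ℂ) ^ 2 * v0 * v1 * h4 +
            v0 * v1 * μ ^ 2 * (d * (1 - coef d) + coef d) * ha
        have h5 : (l - coef d) ^ 2 - coef d ^ 2 = 0 :=
          (mul_eq_zero.1 h3).resolve_right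
            (mul_ne_zero (pow_ne_zero _ hμ) (mul_ne_zero hv0ne hv1ne))
        have h6 : l * (l - 2 * coef d) = 0 := by linear_combination h5
        rcases mul_eq_zero.1 h6 with h7 | h7
        · rw [h7]
          simp
        · have h8 : l = 2 * coef d := by linear_combination h7
          rw [h8, norm_mul, hna]
          intro h9
          have h10 : ‖(2 : ℂ)‖ = 2 := by simp
          rw [h10] at h9
          have h11 : (d : ℝ) + 1 ≠ 0 := by positivity
          field_simp at h9
          linarith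

end fixed

theorem value_smul {d : ℕ} {F : Fin 3 → MvPolynomial (Fin 3) ℂ} (hF : IsHolomorphicMap d F)
    (a : ℂ) (z : Fin 3 → ℂ) : value F (a • z) = a ^ d • value F z := by
  funext i
  change eval (a • z) (F i) = a ^ d * eval z (F i)
  rw [eval_eq', eval_eq', Finset.mul_sum]
  refine Finset.sum_congr rfl fun m hm => ?_
  have h1 : ∑ j, m j = d := by
    have h2 := (hF.1 i) (mem_support_iff.1 hm)
    rw [← h2, Finsupp.weight_apply, Finsupp.sum_fintype _ _ (fun _ => by simp)]
    simp
  have h3 : ∏ j, (a • z) j ^ m j = a ^ d * ∏ j, z j ^ m j := by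
    rw [← h1, ← Finset.prod_pow_eq_pow_sum, ← Finset.prod_mul_distrib]
    exact Finset.prod_congr rfl fun j _ => by rw [Pi.smul_apply, smul_eq_mul, mul_pow]
  rw [h3]
  ring

/-- A holomorphic map in the sense of polynomials gives a map of the plane. -/
theorem exists_map {d : ℕ} {F : Fin 3 → MvPolynomial (Fin 3) ℂ} (hF : IsHolomorphicMap d F) :
    ∃ f, IsMap F f := by
  have hne : ∀ z : Fin 3 → ℂ, z ≠ 0 → value F z ≠ 0 := fun z hz h => hz (hF.2 z h)
  refine ⟨fun p => Projectivization.mk ℂ (value F p.rep) (hne _ p.rep_nonzero), ?_⟩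
  intro z hz
  refine ⟨hne z hz, ?_⟩
  obtain ⟨a, ha⟩ := Projectivization.exists_smul_eq_mk_rep ℂ z hz
  rw [Projectivization.mk_eq_mk_iff']
  refine ⟨(a : ℂ) ^ d, ?_⟩
  rw [← value_smul hF, ← ha]
  rfl

/-- The fixed points of the map. -/
theorem fixed_iff {F : Fin 3 → MvPolynomial (Fin 3) ℂ} {f : ℙ ℂ (Fin 3 → ℂ) → ℙ ℂ (Fin 3 → ℂ)}
    (hf : IsMap F f) {z : Fin 3 → ℂ} (hz : z ≠ 0)
    (h : f (Projectivization.mk ℂ z hz) = Projectivization.mk ℂ z hz) :
    ∃ μ : ℂ, value F z = μ • z := by
  obtain ⟨hw, h1⟩ := hf z hz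
  rw [h1, Projectivization.mk_eq_mk_iff'] at h
  obtain ⟨μ, hμ⟩ := h
  exact ⟨μ, hμ.symm⟩

end Pool.Agent.Y327.PP
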